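import Pool.Agent.Lib.BVU.Facts
import Pool.Agent.Lib.BVU.Alg

/-!
# Module GITZ.Alg: the principle (C) as a property of a complete Boolean algebra
-/

set_option autoImplicit false

namespace Pool.Agent.Lib.GITZ

open Set Pool.Agent.Lib.BVU

universe u

/-- code of a node of the binary tree -/
def nd (s : List Bool) : ℕ := Encodable.encode s

/-- the branch through `t` which continues with `false` -/
def brn (t : List Bool) : Set ℕ := {k | ∃ s, nd s = k ∧ ∃ j, s <+: t ++ List.replicate j false}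

variable {B : Type u} [CompleteBooleanAlgebra B]

/-- total single valued matrices: names of functions -/
structure Tot (y : ℕ → ℕ → B) : Prop where
  sup : ∀ n, ⨆ m, y n m = ⊤
  dis : ∀ n m m', m ≠ m' → y n m ⊓ y n m' = ⊥

/-- names of functions -/
def TM (B : Type u) [CompleteBooleanAlgebra B] : Type u := {y : ℕ → ℕ → B // Tot y}

/-- names of (sets of codes of the nodes of) branches of the binary tree -/
structure BBr (c : ℕ → B) : Prop where
  node : ∀ k, (∀ s, nd s ≠ k) → c k = ⊥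
  down : ∀ s t : List Bool, s <+: t → c (nd t) ≤ c (nd s)
  comp : ∀ s t : List Bool, ¬ s <+: t → ¬ t <+: s → c (nd s) ⊓ c (nd t) = ⊥
  ex : ∀ n, (⨆ s : List Bool, ⨆ _ : s.length = n, c (nd s)) = ⊤

/-- the principle (C) for a complete Boolean algebra -/
def PCAlg (B : Type u) [CompleteBooleanAlgebra B] : Prop :=
  ∀ G : TM B → TM B → TM B, ∃ (A : Set (TM B)) (L : TM B), (∀ x ∈ A, ∀ y ∈ A, G x y ∈ A) ∧
    (∀ c : ℕ → B, BBr c →
      (⨆ h ∈ A, ⨅ n, ⨅ i, ⨅ j, ⨅ _ : j < i, (c n ⊓ L.1 n i ⊓ h.1 n j)ᶜ) = ⊤) ∧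
    ∀ c : ℕ → B, BBr c → ∀ n, ∀ b ∈ A, (⨆ t : List Bool, ⨆ v, ⨆ i, ⨆ _ : v < i,
      (⨅ k, ⨅ _ : k < n, lit (k ∈ brn t) (c k)) ⊓ b.1 (nd t) v ⊓ L.1 (nd t) i ⊓
        ⨅ m, ⨅ _ : m < v, ⨅ _ : m ≠ nd t, ⨆ j, ⨆ _ : j ≤ nd t, L.1 m j) = ⊤

end Pool.Agent.Lib.GITZ
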