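import Pool.Agent.Lib.GITZ.Prin

/-!
# Module GITZ.CH: a form of the continuum hypothesis inside a structure
-/

set_option autoImplicit false

namespace Pool.Agent.Lib.GITZ

open Pool.Agent.Lib.BVM

universe u

variable {M : Type u} (E : M → M → Prop)

/-- A form of the continuum hypothesis: there is a relation `T` on the set `R` of all functions from `w` (the natural numbers) to `w`
such that any two elements of `R` are related and for every `y` in `R` the set of all `x` in `R` with `(x, y) ∈ T` is countable. -/
def CHs : Prop :=
  ∀ w R, IsOmega E w → IsReals E w R → ∃ T,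
    (∀ x y, E x R → E y R → (App E T x y ∨ App E T y x)) ∧
    ∀ y, E y R → ∃ f, (∀ n x x', App E f n x → App E f n x' → x = x') ∧
      ∀ x, E x R → App E T x y → ∃ n, E n w ∧ App E f n x

end Pool.Agent.Lib.GITZ
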