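import Pool.Agent.Lib.GITZ.Prin

/-!
# Module GITZ.ZF: (C) inside the structure `(ZFSet, ∈)` implies (C) for the reals of Lean

Natural numbers: `ZFSet.omega`, its elements are the von Neumann numerals. `IsPair E x y p ↔ p = ZFSet.pair x y`. A function `f : ℕ → ℕ` is coded by
the set of all `ZFSet.pair (num n) (num (f n))`; an operation `g` by the set of all `pair (pair (code x) (code y)) (code (g x y))` (`ZFSet.range` of a function
from a small type, or `ZFSet.sep` from a product).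
-/

set_option autoImplicit false

namespace Pool.Agent.Lib.GITZ

open Pool.Agent.Lib.BVM

namespace ZFAux

open ZFSet

/-- membership -/
abbrev EE : ZFSet.{0} → ZFSet.{0} → Prop := fun x y => x ∈ y

theorem isUPair_iff (x y p : ZFSet.{0}) : IsUPair EE x y p ↔ p = {x, y} := by
  constructor
  · intro h
    ext z
    rw [ZFSet.mem_pair]
    exact h z
  · rintro rfl z
    exact ZFSet.mem_pair

theorem isPair_iff (x y p : ZFSet.{0}) : IsPair EE x y p ↔ p = pair x y := by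
  have e : pair x y = {{x, x}, {x, y}} := by
    unfold ZFSet.pair
    congr 1
    ext z
    simp
  constructor
  · rintro ⟨a, b, h1, h2, h3⟩
    rw [isUPair_iff] at h1 h2 h3
    rw [h3, h1, h2, e]
  · intro h
    refine ⟨{x, x}, {x, y}, (isUPair_iff _ _ _).2 rfl, (isUPair_iff _ _ _).2 rfl, ?_⟩
    rw [isUPair_iff, h, e]

/-- numerals -/
noncomputable def nm : ℕ → ZFSet.{0}
  | 0 => ∅
  | n + 1 => insert (nm n) (nm n)

theorem nm_succ (n : ℕ) : nm (n + 1) = insert (nm n) (nm n) := rfl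

theorem mem_nm (n : ℕ) (z : ZFSet.{0}) : z ∈ nm n ↔ ∃ m < n, z = nm m := by
  induction n with
  | zero =>
    simp [nm]
  | succ n ih =>
    rw [nm_succ, ZFSet.mem_insert_iff, ih]
    constructor
    · rintro (h | ⟨m, hm, h⟩)
      · exact ⟨n, by omega, h⟩
      · exact ⟨m, by omega, h⟩
    · rintro ⟨m, hm, h⟩
      rcases Nat.lt_or_ge m n with h' | h'
      · exact Or.inr ⟨m, h', h⟩
      · left
        rw [h, show m = n by omega]

theorem nm_not_mem (n : ℕ) : nm n ∉ nm n := ZFSet.mem_irrefl _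

theorem nm_inj {m n : ℕ} (h : nm m = nm n) : m = n := by
  rcases Nat.lt_trichotomy m n with h' | h' | h'
  · exfalso
    have : nm m ∈ nm n := (mem_nm n _).2 ⟨m, h', rfl⟩
    rw [h] at this
    exact nm_not_mem _ this
  · exact h'
  · exfalso
    have : nm n ∈ nm m := (mem_nm m _).2 ⟨n, h', rfl⟩
    rw [h] at this
    exact nm_not_mem _ this

theorem nm_mem_nm {m n : ℕ} : nm m ∈ nm n ↔ m < n := by
  rw [mem_nm]
  constructor
  · rintro ⟨k, hk, h⟩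
    rw [nm_inj h]
    exact hk
  · intro h
    exact ⟨m, h, rfl⟩

/-- the natural numbers -/
noncomputable def ww : ZFSet.{0} := ZFSet.range nm

theorem mem_ww (z : ZFSet.{0}) : z ∈ ww ↔ ∃ n, nm n = z := by
  unfold ww
  exact ZFSet.mem_range

theorem nm_mem_ww (n : ℕ) : nm n ∈ ww := (mem_ww _).2 ⟨n, rfl⟩

theorem isOmega_ww : IsOmega EE ww := by
  refine ⟨⟨⟨∅, ?_, nm_mem_ww 0⟩, ?_⟩, ?_⟩
  · intro z hz
    exact ZFSet.notMem_empty z hz
  · intro y hy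
    obtain ⟨n, rfl⟩ := (mem_ww y).1 hy
    refine ⟨nm (n + 1), ?_, nm_mem_ww _⟩
    intro z
    show z ∈ insert (nm n) (nm n) ↔ _
    rw [ZFSet.mem_insert_iff]
    exact or_comm
  · intro x hx z hz
    obtain ⟨n, rfl⟩ := (mem_ww z).1 hz
    obtain ⟨⟨e, he, hex⟩, hs⟩ := hx
    induction n with
    | zero =>
      have : e = ∅ := by
        rw [ZFSet.eq_empty]
        exact he
      rw [this] at hex
      exact hex
    | succ n ih =>
      obtain ⟨s, hs1, hs2⟩ := hs _ (ih (nm_mem_ww n))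
      have : s = nm (n + 1) := by
        ext z
        show z ∈ s ↔ z ∈ insert (nm n) (nm n)
        rw [ZFSet.mem_insert_iff, or_comm]
        exact hs1 z
      rw [← this]
      exact hs2

/-- code of a function -/
noncomputable def cf (f : ℕ → ℕ) : ZFSet.{0} := ZFSet.range (fun n => pair (nm n) (nm (f n)))

theorem app_cf (f : ℕ → ℕ) (a b : ZFSet.{0}) :
    App EE (cf f) a b ↔ ∃ n, a = nm n ∧ b = nm (f n) := by
  unfold App cf
  constructor
  · rintro ⟨p, hp, h⟩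
    rw [isPair_iff] at hp
    obtain ⟨n, hn⟩ := ZFSet.mem_range.1 h
    rw [hp] at hn
    obtain ⟨h1, h2⟩ := ZFSet.pair_injective hn
    exact ⟨n, h1.symm, h2.symm⟩
  · rintro ⟨n, rfl, rfl⟩
    exact ⟨_, (isPair_iff _ _ _).2 rfl, ZFSet.mem_range.2 ⟨n, rfl⟩⟩

theorem app_cf_nm (f : ℕ → ℕ) (n m : ℕ) : App EE (cf f) (nm n) (nm m) ↔ m = f n := by
  rw [app_cf]
  constructor
  · rintro ⟨k, h1, h2⟩
    rw [nm_inj h1]
    exact nm_inj h2
  · rintro rfl
    exact ⟨n, rfl, rfl⟩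

theorem cf_inj {f g : ℕ → ℕ} (h : cf f = cf g) : f = g := by
  funext n
  have := (app_cf_nm f n (f n)).2 rfl
  rw [h, app_cf_nm] at this
  exact this

/-- the reals -/
noncomputable def RR : ZFSet.{0} := ZFSet.range cf

theorem mem_RR (z : ZFSet.{0}) : z ∈ RR ↔ ∃ f, cf f = z := by
  unfold RR
  exact ZFSet.mem_range

theorem isReals_RR : IsReals EE ww RR := by
  intro x
  constructor
  · intro hx
    obtain ⟨f, rfl⟩ := (mem_RR x).1 hx
    refine ⟨⟨?_, ?_⟩, ?_⟩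
    · intro p hp
      obtain ⟨n, hn⟩ := ZFSet.mem_range.1 hp
      exact ⟨nm n, nm (f n), nm_mem_ww n, (isPair_iff _ _ _).2 hn.symm⟩
    · intro a ha
      obtain ⟨n, rfl⟩ := (mem_ww a).1 ha
      refine ⟨nm (f n), (app_cf_nm f n _).2 rfl, ?_⟩
      intro y hy
      obtain ⟨k, h1, h2⟩ := (app_cf f _ _).1 hy
      rw [h2, nm_inj h1]
    · intro a b hab
      obtain ⟨k, h1, h2⟩ := (app_cf f _ _).1 hab
      rw [h2]
      exact nm_mem_ww _
  · rintro ⟨⟨h1, h2⟩, h3⟩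
    have h4 : ∀ n, ∃ m, App EE x (nm n) (nm m) := by
      intro n
      obtain ⟨y, hy, -⟩ := h2 (nm n) (nm_mem_ww n)
      obtain ⟨m, rfl⟩ := (mem_ww y).1 (h3 _ _ hy)
      exact ⟨m, hy⟩
    choose f hf using h4
    refine (mem_RR x).2 ⟨f, ?_⟩
    ext p
    constructor
    · intro hp
      obtain ⟨n, hn⟩ := ZFSet.mem_range.1 hp
      obtain ⟨p', hp', h5⟩ := hf n
      rw [isPair_iff] at hp'
      have : p = p' := by rw [hp', ← hn]
      rw [this]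
      exact h5
    · intro hp
      obtain ⟨a, b, ha, hab⟩ := h1 p hp
      obtain ⟨n, rfl⟩ := (mem_ww a).1 ha
      have e := (h2 (nm n) (nm_mem_ww n)).unique ⟨p, hab, hp⟩ (hf n)
      rw [isPair_iff] at hab
      refine ZFSet.mem_range.2 ⟨n, ?_⟩
      rw [hab, e]

/-- code of an operation -/
noncomputable def cg (g : (ℕ → ℕ) → (ℕ → ℕ) → (ℕ → ℕ)) : ZFSet.{0} :=
  ZFSet.range (fun x : (ℕ → ℕ) × (ℕ → ℕ) => pair (pair (cf x.1) (cf x.2)) (cf (g x.1 x.2)))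

theorem app2_cg (g : (ℕ → ℕ) → (ℕ → ℕ) → (ℕ → ℕ)) (x y z : ZFSet.{0}) :
    App2 EE (cg g) x y z ↔ ∃ u v, x = cf u ∧ y = cf v ∧ z = cf (g u v) := by
  unfold App2 App cg
  constructor
  · rintro ⟨p, hp, r, hr, h⟩
    rw [isPair_iff] at hp hr
    obtain ⟨⟨u, v⟩, hn⟩ := ZFSet.mem_range.1 h
    rw [hr, hp] at hn
    obtain ⟨h1, h2⟩ := ZFSet.pair_injective hn
    obtain ⟨h3, h4⟩ := ZFSet.pair_injective h1
    exact ⟨u, v, h3.symm, h4.symm, h2.symm⟩
  · rintro ⟨u, v, rfl, rfl, rfl⟩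
    exact ⟨_, (isPair_iff _ _ _).2 rfl, _, (isPair_iff _ _ _).2 rfl,
      ZFSet.mem_range.2 ⟨(u, v), rfl⟩⟩

theorem isOp_cg (g : (ℕ → ℕ) → (ℕ → ℕ) → (ℕ → ℕ)) : IsOp EE (cg g) RR := by
  intro x y hx hy
  obtain ⟨u, rfl⟩ := (mem_RR x).1 hx
  obtain ⟨v, rfl⟩ := (mem_RR y).1 hy
  refine ⟨cf (g u v), (mem_RR _).2 ⟨_, rfl⟩, ?_⟩
  intro z'
  rw [app2_cg]
  constructor
  · rintro ⟨u', v', h1, h2, h3⟩
    rw [h3, cf_inj h1, cf_inj h2]
  · rintro rfl
    exact ⟨u, v, rfl, rfl, rfl⟩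

/-- code of a set of natural numbers -/
noncomputable def cs (c : Set ℕ) : ZFSet.{0} := ZFSet.range (fun n : c => nm n)

theorem mem_cs (c : Set ℕ) (z : ZFSet.{0}) : z ∈ cs c ↔ ∃ n ∈ c, nm n = z := by
  unfold cs
  rw [ZFSet.mem_range]
  constructor
  · rintro ⟨⟨n, hn⟩, h⟩
    exact ⟨n, hn, h⟩
  · rintro ⟨n, hn, h⟩
    exact ⟨⟨n, hn⟩, h⟩

theorem nm_mem_cs (c : Set ℕ) (n : ℕ) : nm n ∈ cs c ↔ n ∈ c := by
  rw [mem_cs]
  constructor
  · rintro ⟨k, hk, h⟩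
    rw [← nm_inj h]
    exact hk
  · intro h
    exact ⟨n, h, rfl⟩

theorem eq_cs (C : ZFSet.{0}) (h : ∀ z ∈ C, z ∈ ww) : C = cs {k | nm k ∈ C} := by
  ext z
  rw [mem_cs]
  constructor
  · intro hz
    obtain ⟨n, rfl⟩ := (mem_ww z).1 (h z hz)
    exact ⟨n, hz, rfl⟩
  · rintro ⟨n, hn, rfl⟩
    exact hn

end ZFAux

open ZFAux in
theorem principleC_of_zf (h : PC (fun x y : ZFSet.{0} => x ∈ y)) : PrincipleC := by
  intro g
  obtain ⟨A, l0, N, hA1, hA2, hl0, ⟨hN1, hN2, hN3⟩, hb, hc⟩ :=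
    h ww RR (cg g) isOmega_ww isReals_RR (isOp_cg g)
  obtain ⟨l, rfl⟩ := (mem_RR l0).1 hl0
  have hcs : ∀ C, C ∈ N → cs {k | nm k ∈ C} ∈ N := by
    intro C hC
    rw [← eq_cs C (fun z hz => hN2 C hC z hz)]
    exact hC
  refine ⟨{x | cf x ∈ A}, l, {c | cs c ∈ N}, ?_, ?_, ?_, ?_, ?_⟩
  · intro x hx y hy
    exact hA2 (cf x) (cf y) (cf (g x y)) hx hy ((app2_cg g _ _ _).2 ⟨x, y, rfl, rfl, rfl⟩)
  · obtain ⟨C, hC⟩ := hN1
    exact ⟨_, hcs C hC⟩
  · intro x hx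
    refine hN3 (cs x) ?_ ?_
    · intro k hk
      obtain ⟨n, _, rfl⟩ := (mem_cs x k).1 hk
      exact nm_mem_ww n
    · intro n hn
      obtain ⟨m, rfl⟩ := (mem_ww n).1 hn
      obtain ⟨c, hc1, hc2⟩ := hx m
      refine ⟨cs c, hc1, ?_⟩
      intro k hk
      obtain ⟨j, hj, rfl⟩ := (mem_nm m k).1 hk
      show nm j ∈ cs c ↔ nm j ∈ cs x
      rw [nm_mem_cs, nm_mem_cs]
      exact hc2 j hj
  · intro c hc1
    obtain ⟨h0, hh1, hh2⟩ := hb (cs c) hc1
    obtain ⟨h', rfl⟩ := (mem_RR h0).1 (hA1 _ hh1)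
    refine ⟨h', hh1, ?_⟩
    intro n hn
    have := hh2 (nm n) (nm (l n)) (nm (h' n)) ((nm_mem_cs c n).2 hn) ((app_cf_nm l n _).2 rfl)
      ((app_cf_nm h' n _).2 rfl)
    rcases this with h3 | h3
    · exact (nm_mem_nm.1 h3).le
    · exact (nm_inj h3).le
  · intro c hc1 n b hb1
    obtain ⟨c', s0, v, a, h1, h2, h3, h4, h5, h6, h7⟩ := hc (cs c) (nm n) (cf b) hc1 (nm_mem_ww n) hb1
    obtain ⟨s, rfl⟩ := (mem_ww s0).1 (hN2 c' h1 s0 h2)
    obtain ⟨k1, e1, rfl⟩ := (app_cf b _ _).1 h4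
    have e1' := nm_inj e1
    subst e1'
    obtain ⟨k2, e2, rfl⟩ := (app_cf l _ _).1 h5
    have e2' := nm_inj e2
    subst e2'
    refine ⟨{k | nm k ∈ c'}, hcs c' h1, s, h2, ?_, nm_mem_nm.1 h6, ?_⟩
    · intro k hk
      have h8 : nm k ∈ c' ↔ nm k ∈ cs c := h3 (nm k) (nm_mem_nm.2 hk)
      rw [nm_mem_cs] at h8
      exact h8
    · intro t ht hts
      have := h7 (nm t) (nm (l t)) (nm_mem_nm.2 ht) (fun hc => hts (nm_inj hc))
        ((app_cf_nm l t _).2 rfl)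
      rcases this with h8 | h8
      · exact (nm_mem_nm.1 h8).le
      · exact (nm_inj h8).le

end Pool.Agent.Lib.GITZ
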