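import Pool.Agent.Lib.GITZ.CH
import Pool.Agent.Lib.GITZ.ZF
import Pool.Agent.Lib.P4d466a.Final

/-!
# Module GITZ.CHa: the form of CH inside `(ZFSet, ∈)` implies the existence of a preimage

PROOF. As in GITZ.ZF (coding of the functions from ℕ to ℕ by ZFSets; use its lemmas) `CHs` for ZFSet gives a relation `T` on `ℕ → ℕ` with `T x y ∨ T y x` for all `x y` and
`{x | T x y}` countable for all `y`. Then `#(ℕ → ℕ) ≤ ℵ_ 1`: otherwise there is `A` with `#A = ℵ_ 1` (Cardinal.le_mk_iff_exists_set), `⋃ y ∈ A, {x | T x y}` has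
cardinality at most `ℵ_ 1`, so there is `z` outside; so `¬ T z y`, hence `T y z` for all `y ∈ A`, so `A` is contained in a countable set, contradiction. Hence `𝔠 = ℵ_ 1`
(`#(ℕ → ℕ) = 𝔠`, aleph_one_le_continuum); use hasPreimage_of_CH (P4d466a.Final).
-/

set_option autoImplicit false

namespace Pool.Agent.Lib.GITZ

open Pool.Agent.Lib.BVM Pool.Agent.Lib.P4d466a

namespace CHaAux

open Cardinal

/-- Sierpinski's argument. -/
theorem card_le {α : Type} (T : α → α → Prop) (h1 : ∀ x y, T x y ∨ T y x)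
    (h2 : ∀ y, {x | T x y}.Countable) : #α ≤ ℵ_ 1 := by
  by_contra hcon
  rw [not_le] at hcon
  obtain ⟨A, hA⟩ := Cardinal.le_mk_iff_exists_set.1 hcon.le
  have h3 : #(⋃ y ∈ A, {x | T x y} : Set α) ≤ ℵ_ 1 := by
    rw [Set.biUnion_eq_iUnion]
    refine (Cardinal.mk_iUnion_le _).trans ?_
    have h4 : (⨆ i : A, #{x | T x i}) ≤ ℵ₀ := by
      refine ciSup_le' fun i => ?_
      exact (h2 i).le_aleph0
    refine (mul_le_mul' hA.le h4).trans ?_
    rw [Cardinal.mul_aleph0_eq]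
    exact Cardinal.aleph0_le_aleph 1
  obtain ⟨z, hz⟩ : ∃ z, z ∉ (⋃ y ∈ A, {x | T x y} : Set α) := by
    by_contra hc
    push Not at hc
    have h5 : (⋃ y ∈ A, {x | T x y} : Set α) = Set.univ := Set.eq_univ_of_forall hc
    rw [h5, Cardinal.mk_univ] at h3
    exact absurd h3 (not_le.2 hcon)
  have h6 : A ⊆ {x | T x z} := by
    intro y hy
    rcases h1 z y with h | h
    · exact absurd (Set.mem_biUnion hy h) hz
    · exact h
  have h7 : #A ≤ ℵ₀ := ((h2 z).mono h6).le_aleph0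
  rw [hA] at h7
  have h8 : ℵ₀ < ℵ_ 1 := by
    rw [← Cardinal.aleph_zero]
    exact Cardinal.aleph_lt_aleph.2 zero_lt_one
  exact absurd h7 (not_le.2 h8)

end CHaAux

open ZFAux Cardinal in
theorem hasPreimage_of_CHs (h : CHs (fun x y : ZFSet.{0} => x ∈ y)) : HasPreimage := by
  obtain ⟨T, hT1, hT2⟩ := h ww RR isOmega_ww isReals_RR
  have h1 : #(ℕ → ℕ) ≤ ℵ_ 1 := by
    refine CHaAux.card_le (fun x y => App EE T (cf x) (cf y)) ?_ ?_
    · intro x y
      exact hT1 _ _ ((mem_RR _).2 ⟨x, rfl⟩) ((mem_RR _).2 ⟨y, rfl⟩)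
    · intro y
      obtain ⟨f, hf1, hf2⟩ := hT2 (cf y) ((mem_RR _).2 ⟨y, rfl⟩)
      have h3 : ∀ x : {x | App EE T (cf x) (cf y)}, ∃ n : ℕ, App EE f (nm n) (cf x) := by
        rintro ⟨x, hx⟩
        obtain ⟨n, hn, hn2⟩ := hf2 (cf x) ((mem_RR _).2 ⟨x, rfl⟩) hx
        obtain ⟨k, rfl⟩ := (mem_ww n).1 hn
        exact ⟨k, hn2⟩
      choose g hg using h3
      refine Set.countable_coe_iff.1 (Function.Injective.countable (f := g) ?_)
      intro a b hab
      have h4 := hg b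
      rw [← hab] at h4
      exact Subtype.ext (cf_inj (hf1 _ _ _ (hg a) h4))
  have h2 : (𝔠 : Cardinal.{0}) = ℵ_ 1 := by
    refine le_antisymm ?_ Cardinal.aleph_one_le_continuum
    have h3 : #(ℕ → ℕ) = 𝔠 := by simp
    rw [← h3]
    exact h1
  exact hasPreimage_of_CH h2

end Pool.Agent.Lib.GITZ
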