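import Mathlib
import Pool.Agent.Lib.BVM.Notions

/-!
# Module GITZ.Prin: the combinatorial principle (C)

`PrincipleC` is the principle for the real numbers of Lean, `PC E` is the same principle inside a structure `(M, E)`.
-/

set_option autoImplicit false

namespace Pool.Agent.Lib.GITZ

open Pool.Agent.Lib.BVM

/-- The principle (C): for every binary operation `g` on the set of functions from `ℕ` to `ℕ` there are a set `A` of
functions closed under `g`, a function `l` and a nonempty closed family `N` of sets of natural numbers such that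
(1) on every `c ∈ N` the function `l` is bounded by a member of `A`, and (2) for all `c ∈ N`, `n` and `b ∈ A` there are `c' ∈ N`, which
agrees with `c` below `n`, and `s ∈ c'` with `b s < l s` and `l t ≤ s` for all `t < b s` different from `s`. -/
def PrincipleC : Prop :=
  ∀ g : (ℕ → ℕ) → (ℕ → ℕ) → (ℕ → ℕ), ∃ (A : Set (ℕ → ℕ)) (l : ℕ → ℕ) (N : Set (Set ℕ)),
    (∀ x ∈ A, ∀ y ∈ A, g x y ∈ A) ∧ N.Nonempty ∧
    (∀ x : Set ℕ, (∀ n, ∃ c ∈ N, ∀ k < n, (k ∈ c ↔ k ∈ x)) → x ∈ N) ∧
    (∀ c ∈ N, ∃ h ∈ A, ∀ n ∈ c, l n ≤ h n) ∧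
    ∀ c ∈ N, ∀ n, ∀ b ∈ A, ∃ c' ∈ N, ∃ s ∈ c', (∀ k < n, (k ∈ c' ↔ k ∈ c)) ∧ b s < l s ∧
      ∀ t < b s, t ≠ s → l t ≤ s

universe u

variable {M : Type u} (E : M → M → Prop)

/-- `((x, y), z)` is an element of `g`; for an operation `g` this says `g(x, y) = z`. -/
def App2 (g x y z : M) : Prop := ∃ p, IsPair E x y p ∧ App E g p z

/-- `R` is the set of all functions from `w` to `w`. -/
def IsReals (w R : M) : Prop := ∀ x, E x R ↔ IsFun E x w w

/-- `g` is a binary operation on `R`. -/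
def IsOp (g R : M) : Prop :=
  ∀ x y, E x R → E y R → ∃ z, E z R ∧ ∀ z', App2 E g x y z' ↔ z' = z

/-- `N` is a nonempty closed family of subsets of `w`, the set of natural numbers. -/
def ClosedFamily (w N : M) : Prop :=
  (∃ c, E c N) ∧ (∀ c, E c N → ∀ k, E k c → E k w) ∧
  ∀ x, (∀ k, E k x → E k w) →
    (∀ n, E n w → ∃ c, E c N ∧ ∀ k, E k n → (E k c ↔ E k x)) → E x N

/-- The principle (C) inside `(M, E)`. Natural numbers of the structure are von Neumann ordinals: `E a b` is `a < b` for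
elements of `w`. -/
def PC : Prop :=
  ∀ w R g, IsOmega E w → IsReals E w R → IsOp E g R →
    ∃ A l N, (∀ x, E x A → E x R) ∧ (∀ x y z, E x A → E y A → App2 E g x y z → E z A) ∧
      E l R ∧ ClosedFamily E w N ∧
      (∀ c, E c N → ∃ h, E h A ∧ ∀ n a b, E n c → App E l n a → App E h n b → (E a b ∨ a = b)) ∧
      ∀ c n b, E c N → E n w → E b A → ∃ c' s v a, E c' N ∧ E s c' ∧
        (∀ k, E k n → (E k c' ↔ E k c)) ∧ App E b s v ∧ App E l s a ∧ E v a ∧
        ∀ t a', E t v → t ≠ s → App E l t a' → (E a' s ∨ a' = s)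

end Pool.Agent.Lib.GITZ
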