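import Pool.Agent.Lib.GITZ.Alg
import Pool.Agent.Lib.GITZ.Prin
import Pool.Agent.Lib.STD.Names

/-!
# Module GITZ.ModB: names of functions and of operations

PROOFS.
* isFun_tm: isFun_fnN (BVU/Facts).
* exists_tm: `b = bv (fun U => IsFun (E U) (q U X) (q U omega) (q U omega))`, `x n m = (b ⊓ bv (fun U => App (E U) (q U X) (q U (num n)) (q U (num m)))) ⊔ (if m = 0 then bᶜ else ⊥)`.
  Tot: Ultra.eq_top_of_forall (iSup_app_mem in STD/Names.lean: import it or copy it), disjointness by uniqueness (app_unique, num_inj). `q U X = q U (fnN x)` by fun_repr.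
* exists_op: for x, y let Z be a name (exists_name in STD/Names.lean, maximum principle) such that `∃ z, App2 .. z → App2 .. (q U Z)` for all U and G x y from
  exists_tm for Z. If R, g are as stated in `Mod U`, then fnN x, fnN y are in R, there is z in R (a function) with `App2 .. z' ↔ z' = z`, so q U Z = z is a function and q U Z = q U (fnN (G x y).1).
  BV of App2: BV.ex, BV.isPair, BV.app.
-/

set_option autoImplicit false

namespace Pool.Agent.Lib.GITZ

open Set Pool.Agent.Lib.BVU Pool.Agent.Lib.BVU.bSet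
open Pool.Agent.Lib.BVM (Fml Sat ModelZFC IsEmp IsSucc IsInductive IsOmega IsUPair IsPair App IsFunOn IsFun IsSurj)

universe u

variable {B : Type u} [CompleteBooleanAlgebra B]

theorem isFun_tm (x : TM B) (U : Ultra B) :
    IsFun (E U) (q U (fnN x.1)) (q U omega) (q U omega) := by
  refine isFun_fnN (Ultra.mono Ultra.top (le_iInf fun n => ?_))
    (Ultra.mono Ultra.top (le_iInf fun n => le_iInf fun m => le_iInf fun m' => le_iInf fun hne => ?_))
  · rw [x.2.sup n]
  · rw [x.2.dis n m m' hne, compl_bot]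

theorem exists_tm (X : bSet B) : ∃ x : TM B, ∀ U,
    IsFun (E U) (q U X) (q U omega) (q U omega) → q U X = q U (fnN x.1) := by
  classical
  set b : B := bv (fun U => IsFun (E U) (q U X) (q U omega) (q U omega)) with hb
  set a : ℕ → ℕ → B := fun n m => bv (fun U => App (E U) (q U X) (q U (num n)) (q U (num m)))
    with ha
  set y : ℕ → ℕ → B := fun n m => (b ⊓ a n m) ⊔ (if m = 0 then bᶜ else ⊥) with hy
  have hbU : ∀ U, IsFun (E U) (q U X) (q U omega) (q U omega) ↔ b ∈ U :=
    fun U => (BV.isFun X omega omega).iff U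
  have haU : ∀ (U : Ultra B) (n m : ℕ),
      App (E U) (q U X) (q U (num n)) (q U (num m)) ↔ a n m ∈ U :=
    fun U n m => (BV.app X (num n) (num m)).iff U
  have hyb : ∀ (U : Ultra B), b ∈ U → ∀ n m, y n m ∈ U ↔ a n m ∈ U := by
    intro U hU n m
    rw [hy]
    simp only
    rw [Ultra.sup_iff, Ultra.inf_iff]
    constructor
    · rintro (h | h)
      · exact h.2
      · by_cases hm : m = 0
        · rw [if_pos hm] at h
          exact absurd hU (Ultra.not_iff.1 h)
        · rw [if_neg hm] at h
          exact absurd h Ultra.bot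
    · exact fun h => Or.inl ⟨hU, h⟩
  have hynb : ∀ (U : Ultra B), b ∉ U → ∀ n m, y n m ∈ U ↔ m = 0 := by
    intro U hU n m
    rw [hy]
    simp only
    rw [Ultra.sup_iff, Ultra.inf_iff]
    constructor
    · rintro (h | h)
      · exact absurd h.1 hU
      · by_contra hm
        rw [if_neg hm] at h
        exact Ultra.bot h
    · intro hm
      right
      rw [if_pos hm]
      exact Ultra.not_iff.2 hU
  have htot : Tot y := by
    constructor
    · intro n
      refine Ultra.eq_top_of_forall fun U => ?_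
      by_cases hU : b ∈ U
      · have h1 := Pool.Agent.Lib.STD.iSup_app_mem (t := num n) ((hbU U).2 hU) (E_num_omega U n)
        refine Ultra.mono (Ultra.inf_iff.2 ⟨hU, h1⟩) ?_
        rw [inf_iSup_eq]
        refine iSup_mono fun m => ?_
        exact le_sup_left
      · exact Ultra.mono ((hynb U hU n 0).2 rfl) (le_iSup (fun m => y n m) 0)
    · intro n m m' hne
      refine le_bot_iff.1 (Ultra.le_of_forall fun U hU => ?_)
      exfalso
      obtain ⟨h1, h2⟩ := Ultra.inf_iff.1 hU
      by_cases hb' : b ∈ U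
      · have h3 := (haU U n m).2 ((hyb U hb' n m).1 h1)
        have h4 := (haU U n m').2 ((hyb U hb' n m').1 h2)
        have h5 := app_unique ((hbU U).2 hb').1 (E_num_omega U n) h3 h4
        exact hne (num_inj h5)
      · exact hne (((hynb U hb' n m).1 h1).trans ((hynb U hb' n m').1 h2).symm)
  refine ⟨⟨y, htot⟩, fun U hU => ?_⟩
  refine fun_repr (b := b) (fun U h => (hbU U).2 h) (fun U h n m => ?_) ((hbU U).1 hU)
  rw [haU U n m, hyb U h n m]

theorem exists_op (R g : bSet B) : ∃ G : TM B → TM B → TM B, ∀ U,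
    IsReals (E U) (q U omega) (q U R) → IsOp (E U) (q U g) (q U R) →
      ∀ x y, App2 (E U) (q U g) (q U (fnN x.1)) (q U (fnN y.1)) (q U (fnN (G x y).1)) := by
  have h : ∀ x y : TM B, ∃ z : TM B, ∀ U,
      IsReals (E U) (q U omega) (q U R) → IsOp (E U) (q U g) (q U R) →
        App2 (E U) (q U g) (q U (fnN x.1)) (q U (fnN y.1)) (q U (fnN z.1)) := by
    intro x y
    obtain ⟨Z, hZ⟩ := Pool.Agent.Lib.STD.exists_name
      (P := fun U z => App2 (E U) (q U g) (q U (fnN x.1)) (q U (fnN y.1)) z)
      (fun z => BV.ex fun p => (BV.isPair (fnN x.1) (fnN y.1) p).and (BV.app g p z))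
    obtain ⟨z, hz⟩ := exists_tm Z
    refine ⟨z, fun U hR hg => ?_⟩
    obtain ⟨w, hw, hw'⟩ := hg (q U (fnN x.1)) (q U (fnN y.1)) ((hR _).2 (isFun_tm x U))
      ((hR _).2 (isFun_tm y U))
    have h1 := hZ U ⟨w, (hw' w).2 rfl⟩
    have h2 : q U Z = w := (hw' _).1 h1
    have h3 : IsFun (E U) (q U Z) (q U omega) (q U omega) := by
      rw [h2]
      exact (hR _).1 hw
    rw [← hz U h3]
    exact h1
  choose G hG using h
  exact ⟨G, fun U hR hg x y => hG x y U hR hg⟩

end Pool.Agent.Lib.GITZ
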