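import Pool.Agent.Lib.GITZ.CH
import Pool.Agent.Lib.GITZ.ModB
import Pool.Agent.Lib.STD.ColC
import Pool.Agent.Lib.STD.Names

/-!
# Module GITZ.CHb: a model of ZFC with the form of CH

PROOF. `P = STD.ColC` (countable partial functions from `W = BSM.W` to `ℕ → ℕ`, a σ-closed preorder: colC_closed, colC_ext), `B = ROP ColC` (BVU/RO), nontrivial (em_ne_bot).
(1) No new reals: for `y : TM B` is `⨆ g : ℕ → ℕ, ⨅ n, y.1 n (g n) = ⊤` (eq_top_of_em: for p build by recursion p_0 = p, p_(n+1) ≤ p_n, g n with em p_(n+1) ≤ y n (g n)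
    (exists_em_iSup, as ⨆ m, y n m = ⊤), lower bound by colC_closed).
(2) `c w r = sSup (em '' {p | p.1 w = some r})`: `c w r ⊓ c w r' = ⊥` for r ≠ r', `⨆ w, c w r = ⊤` (see colB_name in STD/ColC, here simpler).
(3) `ix r w = c w r ⊓ ⨅ v < w, (c v r)ᶜ` (least index): `⨆ w, ix r w = ⊤` (well-founded induction: c w r ≤ ⨆ w, ix r w), `ix r w ⊓ ix r w' = ⊥` for w ≠ w', `ix r w ⊓ ix r' w = ⊥` for r ≠ r'.
(4) Names (graphName in BVU/Facts; gN = STD.gN): T = graphName over pairs (r, r') of ground functions: (gN r, gN r') with weight `t r r' = ⨆ w', ⨆ w, ⨆ _ : w ≤ w', ix r w ⊓ ix r' w'`. For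
    r' the name f: pairs (num n, gN r) with weight `⨆ w', ix r' w' ⊓ ix r (e w' n)`, `e w' : ℕ → W` with range Iic w' (BSM.countable_Iic, nonempty).
(5) In `Mod U`, w = q U omega (eq_omega), R: every element x of R is a function, x = q U (fnN y) (GITZ.exists_tm), and by (1) x = q U (gN B r) for some r (case analysis of_iSup over r, `fun_repr` or
    ext_mod; gN_inj, app_gN, app_fnN; STD/Dom.lean and STD/Coding.lean for the style). Totality: t r r' ⊔ t r' r = ⊤. App f n x → App f n x' → x = x': case analysis over the two graph entries (of_mem), weights disjoint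
    unless r = r'. If (gN r, gN r') ∈ T then for some w', w ≤ w': ix r w, ix r' w' in U, w = e w' n, so (num n, gN r) ∈ f.
Model: `Ultra.exists_mem` with b = ⊤, modelZFC U (BVU/Quot).
-/

set_option autoImplicit false

namespace Pool.Agent.Lib.GITZ

open Set Pool.Agent.Lib.BVU Pool.Agent.Lib.BVU.bSet
open Pool.Agent.Lib.BVM (Fml Sat ModelZFC IsEmp IsSucc IsInductive IsOmega IsUPair IsPair App IsFunOn IsFun IsSurj)

namespace CHbAux

open Pool.Agent.Lib.STD Pool.Agent.Lib.BSM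

/-- the regular open algebra of the collapse of the reals -/
abbrev BC : Type := ROP ColC

/-- No new reals. -/
theorem no_new (y : TM BC) : (⨆ g : ℕ → ℕ, ⨅ n, y.1 n (g n)) = ⊤ := by
  classical
  refine eq_top_of_em fun p => ?_
  have hstep : ∀ (n : ℕ) (q : ColC), ∃ r : ColC, r ≤ q ∧ ∃ m, em r ≤ y.1 n m := by
    intro n q
    have h : em q ≤ ⨆ m, y.1 n m := by
      rw [y.2.sup n]
      exact le_top
    obtain ⟨r, hr, m, hm⟩ := exists_em_iSup h
    exact ⟨r, hr, m, hm⟩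
  choose F hF G hG using hstep
  let c : ℕ → ColC := fun n => Nat.rec p (fun n q => F n q) n
  have hc : ∀ n, c (n + 1) ≤ c n := fun n => hF n (c n)
  obtain ⟨r, hr⟩ := colC_closed c hc
  refine ⟨r, hr 0, ?_⟩
  refine le_trans ?_ (le_iSup (fun g : ℕ → ℕ => ⨅ n, y.1 n (g n)) (fun n => G n (c n)))
  exact le_iInf fun n => (em_mono (hr (n + 1))).trans (hG n (c n))

/-- the Boolean value of: the real with index `w` is `r` -/
noncomputable def cc (w : W) (r : ℕ → ℕ) : BC := sSup (em '' {p : ColC | p.1 w = some r})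

theorem cc_dis (w : W) {r r' : ℕ → ℕ} (hne : r ≠ r') : cc w r ⊓ cc w r' = ⊥ := by
  by_contra hcon
  obtain ⟨p, hp⟩ := exists_em hcon
  have hp1 : em p ≤ cc w r := hp.trans inf_le_left
  have hp2 : em p ≤ cc w r' := hp.trans inf_le_right
  unfold cc at hp1 hp2
  rw [sSup_image'] at hp1 hp2
  obtain ⟨s, hs, ⟨x, hx⟩, hsx⟩ := exists_em_iSup hp1
  obtain ⟨s', hs', ⟨y, hy⟩, hsy⟩ := exists_em_iSup ((em_mono hs).trans hp2)
  have h1 : em s' ⊓ em x ≠ ⊥ := by
    rw [inf_eq_left.2 ((em_mono hs').trans hsx)]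
    exact em_ne_bot _
  obtain ⟨z, hz1, hz2⟩ := compat_of h1
  have h2 : em z ⊓ em y ≠ ⊥ := by
    rw [inf_eq_left.2 ((em_mono hz1).trans hsy)]
    exact em_ne_bot _
  obtain ⟨z', hz3, hz4⟩ := compat_of h2
  have e1 : z'.1 w = some r := (hz3.trans hz2) w r hx
  have e2 : z'.1 w = some r' := hz4 w r' hy
  rw [e1] at e2
  exact hne (Option.some.inj e2)

theorem cc_sup (r : ℕ → ℕ) : (⨆ w, cc w r) = ⊤ := by
  refine eq_top_of_em fun p => ?_
  obtain ⟨s, hs, w, hw⟩ := colC_ext p r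
  refine ⟨s, hs, le_trans ?_ (le_iSup (fun w => cc w r) w)⟩
  unfold cc
  exact le_sSup ⟨_, hw, rfl⟩

/-- the Boolean value of: `w` is the least index of `r` -/
noncomputable def ix (r : ℕ → ℕ) (w : W) : BC := cc w r ⊓ ⨅ v, ⨅ _ : v < w, (cc v r)ᶜ

theorem ix_le (r : ℕ → ℕ) (w : W) : ix r w ≤ cc w r := inf_le_left

theorem ix_sup (r : ℕ → ℕ) : (⨆ w, ix r w) = ⊤ := by
  have h : ∀ w, cc w r ≤ ⨆ w, ix r w := by
    intro w
    induction w using WellFoundedLT.induction with
    | ind w ih =>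
      have e : ix r w = cc w r ⊓ (⨆ v, ⨆ _ : v < w, cc v r)ᶜ := by
        unfold ix
        simp only [compl_iSup]
      have h1 : cc w r ≤ ix r w ⊔ ⨆ v, ⨆ _ : v < w, cc v r := by
        rw [e, sup_inf_right, compl_sup_eq_top, inf_top_eq]
        exact le_sup_left
      exact h1.trans (sup_le (le_iSup (fun w => ix r w) w) (iSup_le fun v => iSup_le fun hv => ih v hv))
  refine top_le_iff.1 ?_
  rw [← cc_sup r]
  exact iSup_le h

theorem ix_dis (r : ℕ → ℕ) {w w' : W} (hne : w ≠ w') : ix r w ⊓ ix r w' = ⊥ := by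
  have h : ∀ {v v' : W}, v < v' → ix r v ⊓ ix r v' = ⊥ := by
    intro v v' hv
    refine le_bot_iff.1 ?_
    rw [← inf_compl_self (cc v r)]
    exact inf_le_inf (ix_le r v) (inf_le_right.trans ((iInf_le _ v).trans (iInf_le _ hv)))
  rcases lt_or_gt_of_ne hne with h1 | h1
  · exact h h1
  · rw [inf_comm]
    exact h h1

theorem ix_dis' {r r' : ℕ → ℕ} (hne : r ≠ r') (w : W) : ix r w ⊓ ix r' w = ⊥ := by
  refine le_bot_iff.1 ?_
  rw [← cc_dis w hne]
  exact inf_le_inf (ix_le r w) (ix_le r' w)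

/-- the Boolean value of: the index of `r` is at most the index of `r'` -/
noncomputable def wT (r r' : ℕ → ℕ) : BC := ⨆ w', ⨆ w, ⨆ _ : w ≤ w', ix r w ⊓ ix r' w'

theorem le_wT {r r' : ℕ → ℕ} {w w' : W} (h : w ≤ w') : ix r w ⊓ ix r' w' ≤ wT r r' := by
  unfold wT
  exact le_iSup_of_le w' (le_iSup_of_le w (le_iSup_of_le h le_rfl))

theorem wT_total (r r' : ℕ → ℕ) : wT r r' ⊔ wT r' r = ⊤ := by
  refine top_le_iff.1 ?_
  have h : (⊤ : BC) = ⨆ w, ⨆ w', ix r w ⊓ ix r' w' := by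
    have h1 : (⊤ : BC) = (⨆ w, ix r w) ⊓ ⨆ w', ix r' w' := by
      rw [ix_sup, ix_sup, inf_top_eq]
    rw [h1, iSup_inf_eq]
    exact iSup_congr fun w => inf_iSup_eq _ _
  rw [h]
  refine iSup_le fun w => iSup_le fun w' => ?_
  rcases le_total w w' with h2 | h2
  · exact (le_wT h2).trans le_sup_left
  · rw [inf_comm]
    exact (le_wT h2).trans le_sup_right

theorem exists_en (w : W) : ∃ e : ℕ → W, ∀ v, v ≤ w → ∃ n, e n = v := by
  obtain ⟨e, he⟩ := (countable_Iic w).exists_eq_range ⟨w, le_refl w⟩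
  refine ⟨e, fun v hv => ?_⟩
  have h : v ∈ range e := he ▸ hv
  exact h

/-- an enumeration of the initial segment -/
noncomputable def en (w : W) : ℕ → W := (exists_en w).choose

theorem en_spec {w v : W} (h : v ≤ w) : ∃ n, en w n = v := (exists_en w).choose_spec v h

/-- weights of the enumeration of the predecessors of `r'` -/
noncomputable def wF (r' : ℕ → ℕ) (n : ℕ) (r : ℕ → ℕ) : BC := ⨆ w', ix r' w' ⊓ ix r (en w' n)

theorem wF_dis (r' : ℕ → ℕ) (n : ℕ) {r s : ℕ → ℕ} (hne : r ≠ s) : wF r' n r ⊓ wF r' n s = ⊥ := by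
  refine le_bot_iff.1 ?_
  unfold wF
  rw [iSup_inf_eq]
  refine iSup_le fun w => ?_
  rw [inf_iSup_eq]
  refine iSup_le fun w' => ?_
  by_cases h : w = w'
  · subst h
    rw [← ix_dis' hne (en w n)]
    exact inf_le_inf inf_le_right inf_le_right
  · rw [← ix_dis r' h]
    exact inf_le_inf inf_le_left inf_le_left

theorem wT_le (r r' : ℕ → ℕ) : wT r r' ≤ ⨆ n, wF r' n r := by
  unfold wT
  refine iSup_le fun w' => iSup_le fun w => iSup_le fun hw => ?_
  obtain ⟨n, hn⟩ := en_spec hw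
  refine le_iSup_of_le n ?_
  unfold wF
  refine le_iSup_of_le w' ?_
  rw [hn, inf_comm]

theorem beq_gN_ne {g g' : ℕ → ℕ} (h : g ≠ g') : beq (gN BC g) (gN BC g') = ⊥ :=
  le_bot_iff.1 (Ultra.le_of_forall fun _ hU => absurd (gN_inj (q_eq.2 hU)) h)

/-- name of the relation -/
noncomputable def tN : bSet BC :=
  graphName (ι := (ℕ → ℕ) × (ℕ → ℕ)) (fun p => gN BC p.1) (fun p => gN BC p.2)
    (fun p => wT p.1 p.2)

theorem app_tN {U : Ultra BC} {r r' : ℕ → ℕ} :
    App (E U) (q U tN) (q U (gN BC r)) (q U (gN BC r')) ↔ wT r r' ∈ U := by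
  unfold tN
  rw [app_graph]
  have h : (⨆ i : (ℕ → ℕ) × (ℕ → ℕ), wT i.1 i.2 ⊓
      (beq (gN BC r) (gN BC i.1) ⊓ beq (gN BC r') (gN BC i.2))) = wT r r' := by
    apply le_antisymm
    · refine iSup_le fun i => ?_
      by_cases h1 : r = i.1
      · by_cases h2 : r' = i.2
        · rw [← h1, ← h2]
          exact inf_le_left
        · rw [beq_gN_ne h2]
          simp
      · rw [beq_gN_ne h1]
        simp
    · refine le_iSup_of_le (r, r') ?_
      simp only
      rw [beq_refl, beq_refl, inf_top_eq, inf_top_eq]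
  rw [h]

/-- name of the enumeration of the predecessors of `r'` -/
noncomputable def fN (r' : ℕ → ℕ) : bSet BC :=
  graphName (ι := ℕ × (ℕ → ℕ)) (fun p => num p.1) (fun p => gN BC p.2)
    (fun p => wF r' p.1 p.2)

theorem app_fN {U : Ultra BC} {r' : ℕ → ℕ} {n : ℕ} {r : ℕ → ℕ} (h : wF r' n r ∈ U) :
    App (E U) (q U (fN r')) (q U (num n)) (q U (gN BC r)) := by
  unfold fN
  rw [app_graph]
  refine Ultra.mono h (le_iSup_of_le (n, r) ?_)
  simp only
  rw [beq_refl, beq_refl, inf_top_eq, inf_top_eq]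

/-- Case analysis over an element of the graph. -/
theorem of_app_graph {ι : Type} {x y : ι → bSet BC} {w : ι → BC} {a b : bSet BC}
    {P Q : Ultra BC → Prop} (hP : BV P) (hQ : BV Q)
    (h : ∀ i U, w i ∈ U → q U a = q U (x i) → q U b = q U (y i) → Q U → P U) {U : Ultra BC}
    (h1 : App (E U) (q U (graphName x y w)) (q U a) (q U b)) (h2 : Q U) : P U := by
  rw [app_iff] at h1
  exact of_mem (X := graphName x y w) hP hQ (fun i U hi hZ hQ =>
    h i U hi (bpair_inj.1 hZ).1 (bpair_inj.1 hZ).2 hQ) h1 h2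

/-- Case analysis over a real of the model: it is a ground function. -/
theorem of_real {X : bSet BC} {P Q : Ultra BC → Prop} (hP : BV P) (hQ : BV Q)
    (h : ∀ g U, q U X = q U (gN BC g) → Q U → P U) {U : Ultra BC}
    (h1 : IsFun (E U) (q U X) (q U omega) (q U omega)) (h2 : Q U) : P U := by
  obtain ⟨x, hx⟩ := exists_tm X
  refine of_iSup (t := fun g : ℕ → ℕ => ⨅ n, x.1 n (g n)) (P := P)
    (Q := fun U => IsFun (E U) (q U X) (q U omega) (q U omega) ∧ Q U) hP
    ((BV.isFun _ _ _).and hQ) (fun g V hg hQ' => ?_)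
    (by rw [no_new x]; exact Ultra.top) ⟨h1, h2⟩
  refine h g V ?_ hQ'.2
  rw [hx V hQ'.1]
  symm
  refine fun_repr (b := ⨅ n, x.1 n (g n)) (fun U _ => isFun_gN g U) (fun U hU n m => ?_) hg
  rw [app_gN]
  constructor
  · rintro rfl
    exact Ultra.mono hU (iInf_le _ n)
  · intro h3
    by_contra hne
    have h4 := Ultra.inf_iff.2 ⟨Ultra.mono hU (iInf_le _ n), h3⟩
    rw [x.2.dis n _ _ hne] at h4
    exact Ultra.bot h4

theorem functional (g : ℕ → ℕ) (U : Ultra BC) (n x x' : Mod U)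
    (h1 : App (E U) (q U (fN g)) n x) (h2 : App (E U) (q U (fN g)) n x') : x = x' := by
  obtain ⟨N, rfl⟩ := q_surj n
  obtain ⟨X, rfl⟩ := q_surj x
  obtain ⟨X', rfl⟩ := q_surj x'
  refine of_app_graph (ι := ℕ × (ℕ → ℕ)) (x := fun p => num p.1) (y := fun p => gN BC p.2)
    (w := fun p => wF g p.1 p.2) (a := N) (b := X) (P := fun U => q U X = q U X')
    (Q := fun U => App (E U) (q U (fN g)) (q U N) (q U X')) (BV.eq _ _) (BV.app _ _ _)
    (fun i U hi hN hX hQ => ?_) h1 h2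
  refine of_app_graph (ι := ℕ × (ℕ → ℕ)) (x := fun p => num p.1) (y := fun p => gN BC p.2)
    (w := fun p => wF g p.1 p.2) (a := N) (b := X') (P := fun U => q U X = q U X')
    (Q := fun U => wF g i.1 i.2 ∈ U ∧ (q U N = q U (num i.1) ∧ q U X = q U (gN BC i.2)))
    (BV.eq _ _) ((BV.of_mem _).and ((BV.eq _ _).and (BV.eq _ _)))
    (fun j U hj hN' hX' hQ => ?_) hQ ⟨hi, hN, hX⟩
  obtain ⟨hi, hN, hX⟩ := hQ
  rw [hN] at hN'
  have h3 : i.1 = j.1 := num_inj hN'
  have h4 : i.2 = j.2 := by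
    by_contra hne
    have h5 := Ultra.inf_iff.2 ⟨hi, hj⟩
    rw [← h3, wF_dis g i.1 hne] at h5
    exact Ultra.bot h5
  rw [hX, hX', h4]

theorem chs (U : Ultra BC) : CHs (E U) := by
  intro w R hw hR
  obtain rfl := eq_omega hw
  refine ⟨q U tN, fun x y hx hy => ?_, fun y hy => ?_⟩
  · rw [hR] at hx hy
    obtain ⟨X, rfl⟩ := q_surj x
    obtain ⟨Y, rfl⟩ := q_surj y
    refine of_real (X := X)
      (P := fun U => App (E U) (q U tN) (q U X) (q U Y) ∨ App (E U) (q U tN) (q U Y) (q U X))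
      (Q := fun U => IsFun (E U) (q U Y) (q U omega) (q U omega))
      ((BV.app _ _ _).or (BV.app _ _ _)) (BV.isFun _ _ _) (fun g U hX hQ => ?_) hx hy
    refine of_real (X := Y)
      (P := fun U => App (E U) (q U tN) (q U X) (q U Y) ∨ App (E U) (q U tN) (q U Y) (q U X))
      (Q := fun U => q U X = q U (gN BC g))
      ((BV.app _ _ _).or (BV.app _ _ _)) (BV.eq _ _) (fun g' U hY hQ' => ?_) hQ hX
    rw [hQ', hY, app_tN, app_tN, ← Ultra.sup_iff, wT_total]
    exact Ultra.top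
  · rw [hR] at hy
    obtain ⟨Y, rfl⟩ := q_surj y
    have h : ∃ f, (∀ n x x', App (E U) f n x → App (E U) f n x' → x = x') ∧
        ∀ x, IsFun (E U) x (q U omega) (q U omega) → App (E U) (q U tN) x (q U Y) →
          ∃ n, E U n (q U omega) ∧ App (E U) f n x := by
      refine of_real (X := Y)
        (P := fun U => ∃ f, (∀ n x x', App (E U) f n x → App (E U) f n x' → x = x') ∧
          ∀ x, IsFun (E U) x (q U omega) (q U omega) → App (E U) (q U tN) x (q U Y) →
            ∃ n, E U n (q U omega) ∧ App (E U) f n x)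
        (Q := fun _ => True) ?_ (BV.const True) (fun g U hY _ => ?_) hy trivial
      · exact BV.ex fun f => (BV.all fun n => BV.all fun x => BV.all fun x' =>
          (BV.app _ _ _).imp ((BV.app _ _ _).imp (BV.eq _ _))).and
          (BV.all fun x => (BV.isFun _ _ _).imp ((BV.app _ _ _).imp
            (BV.ex fun n => (BV.mem _ _).and (BV.app _ _ _))))
      · refine ⟨q U (fN g), functional g U, fun x hx hxy => ?_⟩
        obtain ⟨X, rfl⟩ := q_surj x
        refine of_real (X := X)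
          (P := fun U => ∃ n, E U n (q U omega) ∧ App (E U) (q U (fN g)) n (q U X))
          (Q := fun U => q U Y = q U (gN BC g) ∧ App (E U) (q U tN) (q U X) (q U Y))
          (BV.ex fun n => (BV.mem _ _).and (BV.app _ _ _))
          ((BV.eq _ _).and (BV.app _ _ _)) (fun r U hX hQ => ?_) hx ⟨hY, hxy⟩
        obtain ⟨hY, hxy⟩ := hQ
        rw [hX, hY, app_tN] at hxy
        refine of_iSup (t := fun n => wF g n r)
          (P := fun U => ∃ n, E U n (q U omega) ∧ App (E U) (q U (fN g)) n (q U X))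
          (Q := fun U => q U X = q U (gN BC r))
          (BV.ex fun n => (BV.mem _ _).and (BV.app _ _ _)) (BV.eq _ _)
          (fun n U hn hX => ?_) (Ultra.mono hxy (wT_le r g)) hX
        refine ⟨q U (num n), E_num_omega U n, ?_⟩
        rw [hX]
        exact app_fN hn
    obtain ⟨f, hf1, hf2⟩ := h
    exact ⟨f, hf1, fun x hx hxy => hf2 x ((hR x).1 hx) hxy⟩

end CHbAux

open CHbAux in
theorem exists_model_CHs : ∃ (M : Type 1) (E : M → M → Prop), ModelZFC M E ∧ CHs E := by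
  obtain ⟨p⟩ := Pool.Agent.Lib.STD.colC_nonempty
  have htop : (⊤ : BC) ≠ ⊥ := by
    intro h
    exact em_ne_bot p (le_bot_iff.1 (h ▸ le_top))
  obtain ⟨U, _⟩ := Ultra.exists_mem (b := (⊤ : BC)) htop
  exact ⟨Mod U, E U, modelZFC U, chs U⟩

end Pool.Agent.Lib.GITZ
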